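import Pool.Agent.K3h8.GG.Stm3

/-!
# The generic antisymmetric matrix of even size is invertible
-/

set_option autoImplicit false

open MvPolynomial

namespace Pool.Agent.K3h15.GG

open Pool.Agent.K3h8.GG

/-- the partner of a letter -/
def par {n : ℕ} (hn : Even n) (x : Fin n) : Fin n :=
  if h : x.val % 2 = 0 then ⟨x.val + 1, by
    obtain ⟨r, hr⟩ := hn
    have := x.2
    omega⟩ else ⟨x.val - 1, by have := x.2; omega⟩

lemma par_val {n : ℕ} (hn : Even n) (x : Fin n) :
    (par hn x).val = if x.val % 2 = 0 then x.val + 1 else x.val - 1 := by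
  unfold par
  split_ifs <;> rfl

lemma par_par {n : ℕ} (hn : Even n) (x : Fin n) : par hn (par hn x) = x := by
  apply Fin.ext
  rw [par_val, par_val]
  split_ifs with h1 h2 h2 <;> omega

/-- the sign of a letter -/
def sg {n : ℕ} (x : Fin n) : ℚ := if x.val % 2 = 0 then 1 else -1

lemma sg_par {n : ℕ} (hn : Even n) (x : Fin n) : sg (par hn x) = - sg x := by
  unfold sg
  rw [par_val]
  split_ifs with h1 h2 h2
  · omega
  · rfl
  · norm_num
  · omega

lemma sg_sq {n : ℕ} (x : Fin n) : sg x * sg x = 1 := by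
  unfold sg
  split_ifs <;> norm_num

/-- the standard antisymmetric matrix -/
def J {n : ℕ} (hn : Even n) : Matrix (Fin n) (Fin n) ℚ :=
  Matrix.of fun x c => if c = par hn x then sg x else 0

lemma J_mul {n : ℕ} (hn : Even n) : J hn * J hn = -1 := by
  ext x c
  rw [Matrix.mul_apply]
  simp only [J, Matrix.of_apply, ite_mul, zero_mul, Finset.sum_ite_eq', Finset.mem_univ, if_true]
  rw [par_par, sg_par, Matrix.neg_apply, Matrix.one_apply]
  by_cases h : c = x
  · subst h
    rw [if_pos rfl, if_pos rfl, mul_neg, sg_sq]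
  · rw [if_neg h, if_neg (fun h' => h h'.symm), mul_zero, neg_zero]

lemma J_det {n : ℕ} (hn : Even n) : (J hn).det ≠ 0 := by
  intro h
  have h1 := congrArg Matrix.det (J_mul hn)
  rw [Matrix.det_mul, h, mul_zero, Matrix.det_neg, Matrix.det_one, mul_one] at h1
  exact pow_ne_zero _ (by norm_num) h1.symm

theorem t_PDET : S_PDET := by
  intro d a ha hdet
  let e : Fin (d + 1) × Fin (d + 1) → ℚ := fun z =>
    if z.1.val % 2 = 0 ∧ z.2.val = z.1.val + 1 then 1 else 0
  have h1 := congrArg (MvPolynomial.eval e) hdet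
  rw [RingHom.map_det, map_zero] at h1
  apply J_det ha
  rw [← h1]
  congr 1
  ext x c
  rw [RingHom.mapMatrix_apply, Matrix.map_apply, Matrix.of_apply, AX, map_sub, eval_X, eval_X]
  simp only [J, Matrix.of_apply, e, Prod.fst_swap, Prod.snd_swap, Fin.val_castLE]
  have h2 : c = par ha x ↔ c.val = if x.val % 2 = 0 then x.val + 1 else x.val - 1 := by
    rw [Fin.ext_iff, par_val]
  simp only [h2, sg]
  split_ifs <;> first | omega | norm_num

end Pool.Agent.K3h15.GG
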